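import Pool.Agent.Q131.PtDeg

set_option autoImplicit false

/-! # Large-index point-degrees of intersecting families of subspaces

For `n ≥ 3k` and `4 ≤ i ≤ k` every intersecting family of `k`-dimensional subspaces of `K^n`
satisfies `d_{[i+1]} ≤ (n-2 choose k-2)_q + q^(k-1) (n-i-1 choose k-i)_q`. -/

open Module Finset

namespace Pool.Agent.Results.MP_6601f2_co.LargeIndexDegrees

open Pool.Agent.Q131.PtDeg

universe u

/-- Intersecting families of `k`-dimensional subspaces of `K^n`. -/
def IsIntersecting (K : Type u) [Field K] (n k : ℕ) (F : Set (Submodule K (Fin n → K))) : Prop :=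
  (∀ W ∈ F, finrank K W = k) ∧ ∀ W ∈ F, ∀ W' ∈ F, 1 ≤ finrank K (W ⊓ W' : Submodule K _)

/-- The degree of a point `P` in the family `F`: the number of members containing `P`. -/
noncomputable def degree {K : Type u} [Field K] {n : ℕ} (F : Set (Submodule K (Fin n → K)))
    (P : Submodule K (Fin n → K)) : ℕ :=
  {W | W ∈ F ∧ P ≤ W}.ncard

/-- The points of `K^n`: the `1`-dimensional subspaces. -/
noncomputable def points (K : Type u) [Field K] [Finite K] (n : ℕ) :
    Finset (Submodule K (Fin n → K)) :=
  (Set.toFinite {P : Submodule K (Fin n → K) | finrank K P = 1}).toFinset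

/-- The degrees of all the points in non-increasing order. -/
noncomputable def degrees {K : Type u} [Field K] [Finite K] {n : ℕ}
    (F : Set (Submodule K (Fin n → K))) : List ℕ :=
  ((points K n).val.map (degree F)).sort (fun a b => b ≤ a)

/-- The `j`-th largest point-degree `d_j(F)`. -/
noncomputable def d {K : Type u} [Field K] [Finite K] {n : ℕ}
    (F : Set (Submodule K (Fin n → K))) (j : ℕ) : ℕ :=
  (degrees F).getD (j - 1) 0

/-- `[m]_q = 1 + q + ⋯ + q^(m-1) = (q^m - 1)/(q - 1)`. -/
def bracket (q m : ℕ) : ℕ := ∑ i ∈ range m, q ^ i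

theorem d_le {K : Type u} [Field K] [Finite K] {n : ℕ} (F : Set (Submodule K (Fin n → K)))
    {j R : ℕ} (hj : 1 ≤ j) (h : ((points K n).filter fun P => R < degree F P).card < j) :
    d F j ≤ R := by
  by_contra hlt
  push Not at hlt
  unfold d at hlt
  obtain ⟨l, hl⟩ : ∃ l, l = degrees F := ⟨_, rfl⟩
  rw [← hl] at hlt
  have hlen : j - 1 < l.length := by
    by_contra hcon
    rw [List.getD_eq_default _ _ (by omega)] at hlt
    omega
  rw [List.getD_eq_getElem _ _ hlen] at hlt
  have hpair : l.Pairwise (fun a b => b ≤ a) := by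
    rw [hl]
    exact Multiset.pairwise_sort _ _
  rw [List.pairwise_iff_getElem] at hpair
  have htake : ∀ a ∈ l.take j, R < a := by
    intro a ha
    rw [List.mem_take_iff_getElem] at ha
    obtain ⟨m, hm, rfl⟩ := ha
    rcases (by omega : m = j - 1 ∨ m < j - 1) with h1 | h1
    · subst h1
      exact hlt
    · exact hlt.trans_le (hpair m (j - 1) (by omega) hlen h1)
  have hcount : j ≤ l.countP (fun a => R < a) := by
    have h1 : (l.take j).countP (fun a => R < a) = (l.take j).length := by
      rw [List.countP_eq_length]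
      intro a ha
      simpa using htake a ha
    have h2 : (l.take j).countP (fun a => R < a) ≤ l.countP (fun a => R < a) :=
      (List.take_sublist j l).countP_le
    rw [h1, List.length_take] at h2
    omega
  have hm : (l : Multiset ℕ) = (points K n).val.map (degree F) := by
    rw [hl]
    exact Multiset.sort_eq _ _
  have h3 : l.countP (fun a => R < a) = ((points K n).filter fun P => R < degree F P).card := by
    rw [← Multiset.coe_countP, hm, Multiset.countP_map]
    rfl
  omega

/-- The bound for all `4 ≤ i ≤ k` and `n ≥ 3k`. -/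
theorem bound (K : Type u) [Field K] [Finite K] {k i n : ℕ} (hi : 4 ≤ i) (hik : i ≤ k)
    (hn : 3 * k ≤ n) (F : Set (Submodule K (Fin n → K))) (hF : IsIntersecting K n k F) :
    (d F (bracket (Nat.card K) (i + 1)) : ℚ) ≤ qbinom (Nat.card K) (n - 2) (k - 2) +
      (Nat.card K : ℚ) ^ (k - 1) * qbinom (Nat.card K) (n - i - 1) (k - i) := by
  classical
  have hfr : finrank K (Fin n → K) = n := Module.finrank_fin_fun K
  have hco : ((F.toFinset : Finset _) : Set (Submodule K (Fin n → K))) = F := by simp
  have hdeg : ∀ P, degree F P = Q110.QS.deg F.toFinset P := by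
    intro P
    unfold degree Q110.QS.deg
    rw [← Set.ncard_coe_finset]
    congr 1
    ext W
    simp
  have h := few_high (F := F.toFinset) hi hik (by rw [hfr]; exact hn)
    (by
      intro W hW
      exact hF.1 W (by simpa using hW))
    (by
      intro W hW W' hW' h0
      have := hF.2 W (by simpa using hW) W' (by simpa using hW')
      rw [h0, finrank_bot] at this
      omega)
  rw [hfr] at h
  have hpts : points K n = Q110.QS.pts (⊤ : Submodule K (Fin n → K)) := by
    ext P
    simp [points, Q110.QS.mem_pts]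
  have hd : d F (bracket (Nat.card K) (i + 1)) ≤ Q110.QS.gauss K (n - 2) (k - 2) +
      Nat.card K ^ (k - 1) * Q110.QS.gauss K (n - i - 1) (k - i) := by
    refine d_le F ?_ ?_
    · exact Q110.QS.br_pos (by omega)
    · rw [hpts]
      simp only [hdeg]
      exact h
  rw [← gauss_eq_qbinom K (k - 2) (n - 2) (by omega),
    ← gauss_eq_qbinom K (k - i) (n - i - 1) (by omega)]
  exact_mod_cast hd

/-- **Q1 holds.**  For every finite field and every `ε > 0` there is a constant `C` (namely `3`)
such that, for all large `k`, all `i` with `εk ≤ i ≤ k` and all `n > Ck`, every intersecting family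
`F` of `k`-dimensional subspaces satisfies
`d_{[i+1]}(F) ≤ (n-2 choose k-2)_q + q^(k-1) (n-i-1 choose k-i)_q`. In fact this holds whenever
`4 ≤ i ≤ k` and `n ≥ 3k`. -/
theorem result (K : Type u) [Field K] [Finite K] :
    (∀ k i n : ℕ, 4 ≤ i → i ≤ k → 3 * k ≤ n → ∀ F : Set (Submodule K (Fin n → K)),
      IsIntersecting K n k F →
      (d F (bracket (Nat.card K) (i + 1)) : ℚ) ≤ qbinom (Nat.card K) (n - 2) (k - 2) +
        (Nat.card K : ℚ) ^ (k - 1) * qbinom (Nat.card K) (n - i - 1) (k - i)) ∧
    ∀ ε : ℝ, 0 < ε → ∃ C : ℝ, ∃ k₀ : ℕ, ∀ k ≥ k₀, ∀ i : ℕ, ε * k ≤ i → i ≤ k →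
      ∀ n : ℕ, C * k < n → ∀ F : Set (Submodule K (Fin n → K)), IsIntersecting K n k F →
      (d F (bracket (Nat.card K) (i + 1)) : ℚ) ≤ qbinom (Nat.card K) (n - 2) (k - 2) +
        (Nat.card K : ℚ) ^ (k - 1) * qbinom (Nat.card K) (n - i - 1) (k - i) := by
  refine ⟨fun k i n hi hik hn F hF => bound K hi hik hn F hF, ?_⟩
  intro ε hε
  refine ⟨3, ⌈4 / ε⌉₊, ?_⟩
  intro k hk i hi hik n hn F hF
  refine bound K ?_ hik ?_ F hF
  · have h1 : 4 / ε ≤ k := (Nat.le_ceil _).trans (by exact_mod_cast hk)
    have h2 : 4 ≤ ε * k := by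
      rw [div_le_iff₀ hε] at h1
      linarith
    exact_mod_cast h2.trans hi
  · exact_mod_cast hn.le

end Pool.Agent.Results.MP_6601f2_co.LargeIndexDegrees
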